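import Pool.Agent.Lib.MP_04ab3e_co.Main

namespace Pool.Agent.Results.MP_04ab3e_co.Asymptotic

open Pool.Agent.Lib.MP_04ab3e_co

/-- Every antidirected-connected finite digraph with at least `k + 1` vertices and minimum
semidegree at least `k / 2 + 80 * k ^ (9 / 10)` contains an antidirected path of length `k`. -/
theorem result (k : ℕ) (hk : 1 ≤ k) (V : Type) [Fintype V] (D : Digraph V)
    (hloop : ∀ v, ¬ D.Adj v v) (hconn : AntiConnected D) (hn : k + 1 ≤ Fintype.card V)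
    (hdeg : ∀ v, (k : ℝ) / 2 + 80 * (k : ℝ) ^ (9 / 10 : ℝ) ≤ ({w | D.Adj v w}.ncard : ℝ) ∧
      (k : ℝ) / 2 + 80 * (k : ℝ) ^ (9 / 10 : ℝ) ≤ ({w | D.Adj w v}.ncard : ℝ)) :
    ∃ p : Fin (k + 1) → V, IsAntiPath D k p :=
  asymptotic k hk V D hloop hconn hn hdeg

end Pool.Agent.Results.MP_04ab3e_co.Asymptotic
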